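import Pool.Agent.Q157.IL.Main

/-!
Withdrawn hand-in (was the proof of the frozen statement 12905 of MP_26bcd4_gt): V. Soltan (1995)
proved the bound 8 for primitive inner illuminating sets in dimension 3, so the result is known.
Kept as a library theorem only.
-/

set_option autoImplicit false

namespace Pool.Agent.Q157.Withdrawn.InnerIllumination

/-- Every primitive inner illuminating set of a convex body in 3-space has at most 80 points. -/
theorem bounded :
    ∃ N : ℕ, ∀ K : Set (EuclideanSpace ℝ (Fin 3)),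
      IsCompact K → Convex ℝ K → (interior K).Nonempty →
      ∀ A : Set (EuclideanSpace ℝ (Fin 3)),
        (A ⊆ frontier K ∧
          ∀ x ∈ frontier K, ∃ a ∈ A, ∃ ε : ℝ, 0 < ε ∧ ε < 1 ∧
            (1 - ε) • x + ε • a ∈ interior K) →
        (∀ B : Set (EuclideanSpace ℝ (Fin 3)), B ⊆ A → B ≠ A →
          ¬ (B ⊆ frontier K ∧
            ∀ x ∈ frontier K, ∃ b ∈ B, ∃ ε : ℝ, 0 < ε ∧ ε < 1 ∧
              (1 - ε) • x + ε • b ∈ interior K)) →
        A.encard ≤ (N : ℕ∞) := by
  exact ⟨80, fun K hK hc hi A hA hprim => Pool.Agent.Q157.IL.main K hK hc hi A hA hprim⟩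

end Pool.Agent.Q157.Withdrawn.InnerIllumination
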